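import Mathlib

set_option autoImplicit false

/-!
The signed `[0,s]`-critical number of the cyclic group of odd order `n` divisible by `3` is
`n / 3 + 1` for every `s ≥ 3`.

Key point: if `G` is a finite abelian group of odd order and `B` is a symmetric subset of `G`
containing `0` with `3 * |B| > |G|`, then `B + B + B = G`.  The proof uses atoms
(the isoperimetric method) and induction over quotient groups.
-/

namespace Pool.Agent.Results.MP_33eb55_co.OddCyclic

open Finset
open scoped Pointwise

section General

variable {G : Type} [AddCommGroup G] [Fintype G] [DecidableEq G]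

omit [DecidableEq G] in
/-- In a group of odd order, `x + x ∈ H` implies `x ∈ H`. -/
lemma mem_of_double (hodd : Odd (Fintype.card G)) (H : AddSubgroup G) (x : G)
    (h : x + x ∈ H) : x ∈ H := by
  obtain ⟨k, hk⟩ := hodd
  have h1 : (Fintype.card G) • x = 0 := card_nsmul_eq_zero
  rw [hk] at h1
  have h2 : x = -(k • (x + x)) := by
    have : (2 * k + 1) • x = k • (x + x) + x := by
      rw [add_nsmul, one_nsmul, mul_comm, mul_nsmul, two_nsmul]
      rw [smul_add]
    rw [this] at h1
    exact eq_neg_of_add_eq_zero_right h1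
  rw [h2]
  exact H.neg_mem (H.nsmul_mem h k)

/-- A symmetric set containing `0` in a group of odd order has odd cardinality. -/
lemma odd_card (hodd : Odd (Fintype.card G)) (B : Finset G) (h0 : (0 : G) ∈ B)
    (hs : ∀ x ∈ B, -x ∈ B) : Odd B.card := by
  have h1 : ∑ x ∈ B.erase 0, (1 : ZMod 2) = 0 := by
    refine Finset.sum_involution (fun x _ => -x) ?_ ?_ ?_ ?_
    · intro a _; decide
    · intro a ha _ h
      have hh : a + a ∈ (⊥ : AddSubgroup G) := by
        rw [AddSubgroup.mem_bot]
        nth_rewrite 1 [← h]
        simp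
      have := mem_of_double hodd ⊥ a hh
      rw [AddSubgroup.mem_bot] at this
      exact (Finset.mem_erase.1 ha).1 this
    · intro a ha
      rw [Finset.mem_erase] at ha ⊢
      exact ⟨by simpa using ha.1, hs a ha.2⟩
    · intro a ha; simp
  have h2 : ((B.erase 0).card : ZMod 2) = 0 := by simpa using h1
  rw [ZMod.natCast_eq_zero_iff_even] at h2
  have h3 := Finset.card_erase_add_one h0
  rw [← h3]
  exact Even.add_one h2

/-- The atom theorem for symmetric sets. -/
lemma atom (B : Finset G) (h0 : (0 : G) ∈ B) (hs : ∀ x ∈ B, -x ∈ B) (hne : B ≠ univ) :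
    ∃ (H : AddSubgroup G) (F : Finset G), (∀ x, x ∈ F ↔ x ∈ H) ∧ F + B ≠ univ ∧
      ∀ Y : Finset G, Y.Nonempty → Y + B ≠ univ →
        (F + B).card + Y.card ≤ (Y + B).card + F.card := by
  classical
  set N := Fintype.card G with hN
  have hsub : ∀ Y : Finset G, Y ⊆ Y + B := by
    intro Y y hy
    rw [Finset.mem_add]
    exact ⟨y, hy, 0, h0, by simp⟩
  -- admissible sets
  set Ad : Finset (Finset G) := univ.filter (fun Y => Y.Nonempty ∧ Y + B ≠ univ) with hAd
  have hAdne : Ad.Nonempty := by
    refine ⟨{0}, ?_⟩
    simp only [hAd, mem_filter, mem_univ, true_and, singleton_nonempty]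
    rw [show ({0} : Finset G) + B = B by ext z; simp [Finset.mem_add]]
    exact hne
  obtain ⟨X0, hX0, hX0min⟩ := Finset.exists_min_image Ad (fun Y => (Y + B).card - Y.card) hAdne
  set Ad2 : Finset (Finset G) :=
    Ad.filter (fun Y => (Y + B).card - Y.card ≤ (X0 + B).card - X0.card) with hAd2
  have hAd2ne : Ad2.Nonempty := ⟨X0, by rw [hAd2, Finset.mem_filter]; exact ⟨hX0, le_rfl⟩⟩
  obtain ⟨X, hX, hXmin⟩ := Finset.exists_min_image Ad2 (fun Y => Y.card) hAd2ne
  have hXA : X.Nonempty ∧ X + B ≠ univ := by
    have := (Finset.mem_filter.1 hX).1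
    simpa [hAd] using this
  have hmin : ∀ Y : Finset G, Y.Nonempty → Y + B ≠ univ →
      (X + B).card + Y.card ≤ (Y + B).card + X.card := by
    intro Y h1 h2
    have hY : Y ∈ Ad := by simp [hAd, h1, h2]
    have a1 := hX0min Y hY
    have a2 := (Finset.mem_filter.1 hX).2
    have a3 := Finset.card_le_card (hsub Y)
    have a4 := Finset.card_le_card (hsub X)
    omega
  have hcard : ∀ Y : Finset G, Y.Nonempty → Y + B ≠ univ →
      (Y + B).card + X.card ≤ (X + B).card + Y.card → X.card ≤ Y.card := by
    intro Y h1 h2 h3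
    have hY : Y ∈ Ad := by simp [hAd, h1, h2]
    have a2 := (Finset.mem_filter.1 hX).2
    have a3 := Finset.card_le_card (hsub Y)
    have a4 := Finset.card_le_card (hsub X)
    have hY2 : Y ∈ Ad2 := by
      rw [hAd2, Finset.mem_filter]
      exact ⟨hY, by omega⟩
    exact hXmin Y hY2
  -- duality
  have hdual : X.card + (X + B).card ≤ N := by
    set X' : Finset G := (X + B)ᶜ with hX'
    have b1 : X'.Nonempty := by
      rw [hX', Finset.nonempty_iff_ne_empty]
      intro h
      exact hXA.2 (Finset.compl_eq_empty_iff _ |>.1 h)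
    have b2 : X' + B ⊆ Xᶜ := by
      intro z hz
      rw [Finset.mem_add] at hz
      obtain ⟨x', hx', b, hb, rfl⟩ := hz
      rw [Finset.mem_compl]
      intro hzX
      have : x' ∈ X + B := by
        rw [Finset.mem_add]
        exact ⟨x' + b, hzX, -b, hs b hb, by abel⟩
      exact (Finset.mem_compl.1 hx') this
    have b3 : X' + B ≠ univ := by
      intro h
      obtain ⟨x, hx⟩ := hXA.1
      have : x ∈ X' + B := by rw [h]; exact mem_univ x
      exact (Finset.mem_compl.1 (b2 this)) hx
    have b4 := Finset.card_le_card b2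
    have b5 : X'.card = N - (X + B).card := by rw [hX', Finset.card_compl]
    have b6 : (Xᶜ).card = N - X.card := by rw [Finset.card_compl]
    have b7 : (X + B).card ≤ N := Finset.card_le_univ _
    have b8 : X.card ≤ N := Finset.card_le_univ _
    have := hcard X' b1 b3 (by omega)
    omega
  -- two intersecting translates coincide
  have hint : ∀ Y : Finset G, Y.card = X.card → (Y + B).card = (X + B).card →
      (X ∩ Y).Nonempty → X = Y := by
    intro Y hY1 hY2 hZ
    have c1 : (X ∩ Y) + B ≠ univ := by
      intro h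
      apply hXA.2
      apply Finset.eq_univ_of_forall
      intro z
      have : z ∈ (X ∩ Y) + B := by rw [h]; exact mem_univ z
      exact Finset.add_subset_add_right Finset.inter_subset_left this
    have c2 : ((X ∪ Y) + B).card + ((X ∩ Y) + B).card ≤ (X + B).card + (Y + B).card := by
      have d1 : (X ∪ Y) + B = (X + B) ∪ (Y + B) := Finset.union_add
      have d2 : (X ∩ Y) + B ⊆ (X + B) ∩ (Y + B) := Finset.inter_add_subset
      have d3 := Finset.card_union_add_card_inter (X + B) (Y + B)
      have d4 := Finset.card_le_card d2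
      rw [d1]
      omega
    have c3 := Finset.card_union_add_card_inter X Y
    have c4 : (X ∩ Y).card ≤ X.card := Finset.card_le_card Finset.inter_subset_left
    have c5 : 0 < (X ∩ Y).card := Finset.card_pos.2 hZ
    have c6 : X.card ≤ (X ∩ Y).card := by
      by_contra hlt
      have e1 : ¬ (((X ∩ Y) + B).card + X.card ≤ (X + B).card + (X ∩ Y).card) := by
        intro h
        exact hlt (hcard _ hZ c1 h)
      have e2 : (X ∪ Y) + B ≠ univ := by
        intro h
        have : ((X ∪ Y) + B).card = N := by rw [h]; rfl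
        omega
      have e3 := hmin (X ∪ Y) (hXA.1.mono Finset.subset_union_left) e2
      omega
    have c7 : X ∩ Y = X := Finset.eq_of_subset_of_card_le Finset.inter_subset_left c6
    have c8 : X ⊆ Y := by
      rw [← c7]; exact Finset.inter_subset_right
    exact Finset.eq_of_subset_of_card_le c8 (by omega)
  obtain ⟨x0, hx0⟩ := hXA.1
  -- the translate containing zero
  set F : Finset G := {-x0} + X with hF
  have hFcard : F.card = X.card := Finset.card_singleton_add _ _
  have hFB : F + B = {-x0} + (X + B) := by rw [hF, add_assoc]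
  have hFBcard : (F + B).card = (X + B).card := by
    rw [hFB]; exact Finset.card_singleton_add _ _
  have hFsub : ∀ x ∈ F, ∀ y ∈ F, x + -y ∈ F := by
    intro x hx y hy
    rw [hF, Finset.mem_add] at hx hy
    obtain ⟨a, ha, x1, hx1, rfl⟩ := hx
    obtain ⟨b, hb, y1, hy1, rfl⟩ := hy
    rw [Finset.mem_singleton] at ha hb
    subst ha; subst hb
    -- X and X + (x0 - y1) share the point x0
    have key : X = {x0 - y1} + X := by
      apply hint
      · exact Finset.card_singleton_add _ _
      · rw [add_assoc]; exact Finset.card_singleton_add _ _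
      · refine ⟨x0, ?_⟩
        rw [Finset.mem_inter]
        refine ⟨hx0, ?_⟩
        rw [Finset.mem_add]
        exact ⟨x0 - y1, by simp, y1, hy1, by abel⟩
    rw [hF, Finset.mem_add]
    refine ⟨-x0, by simp, x0 - y1 + x1, ?_, by abel⟩
    rw [key, Finset.mem_add]
    exact ⟨x0 - y1, by simp, x1, hx1, rfl⟩
  have hF0 : (0 : G) ∈ F := by
    rw [hF, Finset.mem_add]
    exact ⟨-x0, by simp, x0, hx0, by simp⟩
  refine ⟨AddSubgroup.ofSub (F : Set G) ⟨0, by simpa using hF0⟩ ?_, F, ?_, ?_, ?_⟩
  · intro x hx y hy
    exact hFsub x (by simpa using hx) y (by simpa using hy)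
  · intro x
    exact Iff.rfl
  · intro h
    apply hXA.2
    apply Finset.eq_univ_of_forall
    intro z
    have : -x0 + z ∈ F + B := by rw [h]; exact mem_univ _
    rw [hFB, Finset.mem_add] at this
    obtain ⟨a, ha, w, hw, h⟩ := this
    rw [Finset.mem_singleton] at ha
    subst ha
    have : w = z := by simpa using h
    rwa [this] at hw
  · intro Y h1 h2
    have := hmin Y h1 h2
    omega

/-- If `x, y ∈ B` are not both in `H` and `B` has fewer than `|H|` holes in `H + B`, then the
whole coset `x + y + H` lies in `B + B`. -/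
lemma full_coset (hodd : Odd (Fintype.card G)) (B : Finset G) (hs : ∀ x ∈ B, -x ∈ B)
    (H : AddSubgroup G) (F : Finset G) (hF : ∀ x, x ∈ F ↔ x ∈ H)
    (hholes : (F + B).card < B.card + F.card) (h0 : (0 : G) ∈ F)
    (x y : G) (hx : x ∈ B) (hy : y ∈ B) (hxy : x ∉ H ∨ y ∉ H) (h : G) (hh : h ∈ H) :
    ∃ u ∈ B, ∃ v ∈ B, u + v = x + y + h := by
  classical
  by_contra hcon
  push Not at hcon
  have hbad2 : ∀ t : G, x + t ∈ B → y + h - t ∉ B := by
    intro t ht ht2
    exact hcon (x + t) ht (y + h - t) ht2 (by abel)
  have hBsub : B ⊆ F + B := by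
    intro z hz
    rw [Finset.mem_add]
    exact ⟨0, h0, z, hz, by simp⟩
  have hdiff : ((F + B) \ B).card < F.card := by
    rw [Finset.card_sdiff_of_subset hBsub]
    have := Finset.card_le_card hBsub
    omega
  have hxF : ∀ t ∈ F, x + t ∈ F + B := by
    intro t ht
    rw [Finset.mem_add]
    exact ⟨t, ht, x, hx, by abel⟩
  have hyF : ∀ t ∈ F, y + h - t ∈ F + B := by
    intro t ht
    rw [Finset.mem_add]
    refine ⟨h - t, ?_, y, hy, by abel⟩
    rw [hF] at ht ⊢
    exact H.sub_mem hh ht
  have hyF2 : ∀ t ∈ F, -(y + h - t) ∈ F + B := by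
    intro t ht
    rw [Finset.mem_add]
    refine ⟨t - h, ?_, -y, hs y hy, by abel⟩
    rw [hF] at ht ⊢
    exact H.sub_mem ht hh
  by_cases hc : x - y ∈ H
  · have hc2 : x + y ∉ H := by
      intro h2
      have h3 : x + x ∈ H := by
        have := H.add_mem hc h2
        have e : x - y + (x + y) = x + x := by abel
        rwa [e] at this
      have h4 := mem_of_double hodd H x h3
      have h5 : y ∈ H := by
        have := H.sub_mem h4 hc
        have e : x - (x - y) = y := by abel
        rwa [e] at this
      rcases hxy with h6 | h6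
      · exact h6 h4
      · exact h6 h5
    have hle : F.card ≤ ((F + B) \ B).card := by
      refine Finset.card_le_card_of_injOn (fun t => if x + t ∈ B then -(y + h - t) else x + t)
        ?_ ?_
      · intro t ht
        have ht' : t ∈ F := by simpa using ht
        simp only
        split_ifs with hB
        · have h7 := hbad2 t hB
          have h8 : -(y + h - t) ∉ B := by
            intro h9
            have := hs _ h9
            rw [neg_neg] at this
            exact h7 this
          exact Finset.mem_coe.2 (Finset.mem_sdiff.2 ⟨hyF2 t ht', h8⟩)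
        · exact Finset.mem_coe.2 (Finset.mem_sdiff.2 ⟨hxF t ht', hB⟩)
      · intro t ht t' ht' heq
        have htH : t ∈ H := (hF t).1 (by simpa using ht)
        have htH' : t' ∈ H := (hF t').1 (by simpa using ht')
        simp only at heq
        split_ifs at heq with h1 h2 h2
        · have := neg_injective heq
          exact sub_right_injective this
        · exfalso
          apply hc2
          have e : x + y = t - t' - h := by
            have : x = -(y + h - t) - t' := by rw [heq]; abel
            rw [this]; abel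
          rw [e]
          exact H.sub_mem (H.sub_mem htH htH') hh
        · exfalso
          apply hc2
          have e : x + y = t' - t - h := by
            have : x = -(y + h - t') - t := by rw [← heq]; abel
            rw [this]; abel
          rw [e]
          exact H.sub_mem (H.sub_mem htH' htH) hh
        · exact add_left_cancel heq
    omega
  · have hle : F.card ≤ ((F + B) \ B).card := by
      refine Finset.card_le_card_of_injOn (fun t => if x + t ∈ B then y + h - t else x + t)
        ?_ ?_
      · intro t ht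
        have ht' : t ∈ F := by simpa using ht
        simp only
        split_ifs with hB
        · exact Finset.mem_coe.2 (Finset.mem_sdiff.2 ⟨hyF t ht', hbad2 t hB⟩)
        · exact Finset.mem_coe.2 (Finset.mem_sdiff.2 ⟨hxF t ht', hB⟩)
      · intro t ht t' ht' heq
        have htH : t ∈ H := (hF t).1 (by simpa using ht)
        have htH' : t' ∈ H := (hF t').1 (by simpa using ht')
        simp only at heq
        split_ifs at heq with h1 h2 h2
        · exact sub_right_injective heq
        · exfalso
          apply hc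
          have e : x - y = h - t - t' := by
            have : x = (y + h - t) - t' := by rw [heq]; abel
            rw [this]; abel
          rw [e]
          exact H.sub_mem (H.sub_mem hh htH) htH'
        · exfalso
          apply hc
          have e : x - y = h - t' - t := by
            have : x = (y + h - t') - t := by rw [← heq]; abel
            rw [this]; abel
          rw [e]
          exact H.sub_mem (H.sub_mem hh htH') htH
        · exact add_left_cancel heq
    omega

end General

/-- Key theorem: in an abelian group of odd order, a symmetric set containing `0` with more than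
a third of the elements satisfies `B + B + B = G`. -/
theorem triple (N : ℕ) : ∀ (G : Type) [AddCommGroup G] [Fintype G] [DecidableEq G],
    Fintype.card G = N → Odd (Fintype.card G) → ∀ B : Finset G, (0 : G) ∈ B →
    (∀ x ∈ B, -x ∈ B) → Fintype.card G < 3 * B.card →
    ∀ g : G, ∃ x ∈ B, ∃ y ∈ B, ∃ z ∈ B, x + y + z = g := by
  induction N using Nat.strong_induction_on with
  | _ N ih =>
  intro G _ _ _ hN hodd B h0 hs hB g
  classical
  by_contra hg
  push Not at hg
  have h3 : B + B + B ≠ univ := by
    intro h
    have : g ∈ B + B + B := by rw [h]; exact mem_univ g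
    rw [Finset.mem_add] at this
    obtain ⟨w, hw, z, hz, hwz⟩ := this
    rw [Finset.mem_add] at hw
    obtain ⟨x, hx, y, hy, rfl⟩ := hw
    exact hg x hx y hy z hz hwz
  have hsub : ∀ Y : Finset G, Y ⊆ Y + B := by
    intro Y y hy
    rw [Finset.mem_add]
    exact ⟨y, hy, 0, h0, by simp⟩
  have h2 : B + B ≠ univ := by
    intro h
    apply h3
    rw [Finset.eq_univ_iff_forall]
    intro z
    apply hsub
    rw [h]; exact mem_univ z
  have h1 : B ≠ univ := by
    intro h
    apply h2
    rw [Finset.eq_univ_iff_forall]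
    intro z
    apply hsub
    rw [h]; exact mem_univ z
  obtain ⟨H, F, hF, hFB, hmin⟩ := atom B h0 hs h1
  have m1 := hmin B ⟨0, h0⟩ h2
  have m2 := hmin (B + B) ⟨0, hsub _ h0⟩ h3
  have m3 : (B + B + B).card < Fintype.card G := by
    rw [Finset.card_lt_iff_ne_univ]
    exact h3
  have hF0 : (0 : G) ∈ F := (hF 0).2 H.zero_mem
  have hFcard : F.card = Nat.card H := by
    rw [Nat.card_eq_fintype_card, Fintype.card_of_subtype F hF]
  have hindex : Nat.card H * H.index = Fintype.card G := by
    rw [H.card_mul_index, Nat.card_eq_fintype_card]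
  by_cases hbot : F.card = 1
  · -- trivial atom
    obtain ⟨a, ha⟩ := Finset.card_eq_one.1 hbot
    have ha0 : a = 0 := by
      rw [ha, Finset.mem_singleton] at hF0
      exact hF0.symm
    have hFB2 : F + B = B := by
      rw [ha, ha0]; ext z; simp [Finset.mem_add]
    rw [hFB2] at m1 m2
    have hBodd := odd_card hodd B h0 hs
    obtain ⟨k, hk⟩ := hBodd
    obtain ⟨l, hl⟩ := hodd
    omega
  · have hFpos : 0 < F.card := Finset.card_pos.2 ⟨0, hF0⟩
    have hholes : (F + B).card < B.card + F.card := by omega
    -- H is a proper subgroup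
    have hHtop : H ≠ ⊤ := by
      intro h
      apply hFB
      rw [Finset.eq_univ_iff_forall]
      intro z
      rw [Finset.mem_add]
      refine ⟨z, ?_, 0, h0, by simp⟩
      rw [hF, h]; exact AddSubgroup.mem_top z
    have hidx1 : H.index ≠ 1 := by
      intro h
      exact hHtop (AddSubgroup.index_eq_one.1 h)
    have hidxodd : Odd H.index := by
      rw [← hindex] at hodd
      exact (Nat.odd_mul.1 hodd).2
    have hidx3 : 3 ≤ H.index := by
      obtain ⟨k, hk⟩ := hidxodd
      omega
    -- the quotient
    have hcardq : Nat.card (G ⧸ H) = H.index := rfl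
    have : Fintype (G ⧸ H) := Fintype.ofFinite _
    have : DecidableEq (G ⧸ H) := Classical.decEq _
    have hcardq2 : Fintype.card (G ⧸ H) = H.index := by
      rw [← hcardq, Nat.card_eq_fintype_card]
    have hlt : H.index < N := by
      rw [← hN, ← hindex, ← hFcard]
      have hF2 : 2 ≤ F.card := by omega
      nlinarith
    set B' : Finset (G ⧸ H) := B.image (QuotientAddGroup.mk : G → G ⧸ H) with hB'
    have hfib : B.card ≤ F.card * B'.card := by
      apply Finset.card_le_mul_card_image
      intro q hq
      rw [Finset.mem_image] at hq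
      obtain ⟨b, hb, rfl⟩ := hq
      have : ({x ∈ B | (QuotientAddGroup.mk x : G ⧸ H) = QuotientAddGroup.mk b} : Finset G)
          ⊆ {b} + F := by
        intro x hx
        rw [Finset.mem_filter] at hx
        rw [Finset.mem_add]
        refine ⟨b, by simp, -b + x, ?_, by abel⟩
        rw [hF]
        exact QuotientAddGroup.eq.1 hx.2.symm
      refine (Finset.card_le_card this).trans ?_
      rw [Finset.card_singleton_add]
    have hB'card : Fintype.card (G ⧸ H) < 3 * B'.card := by
      rw [hcardq2]
      have e1 : F.card * H.index < F.card * (3 * B'.card) := by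
        calc F.card * H.index = Fintype.card G := by rw [hFcard, hindex]
          _ < 3 * B.card := hB
          _ ≤ 3 * (F.card * B'.card) := by omega
          _ = F.card * (3 * B'.card) := by ring
      exact Nat.lt_of_mul_lt_mul_left e1
    have hodd' : Odd (Fintype.card (G ⧸ H)) := by rw [hcardq2]; exact hidxodd
    obtain ⟨qx, hqx, qy, hqy, qz, hqz, hq⟩ :=
      ih H.index hlt (G ⧸ H) hcardq2 hodd' B'
        (by rw [hB', Finset.mem_image]; exact ⟨0, h0, rfl⟩)
        (by
          intro q hq
          rw [hB', Finset.mem_image] at hq ⊢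
          obtain ⟨b, hb, rfl⟩ := hq
          exact ⟨-b, hs b hb, rfl⟩)
        hB'card (QuotientAddGroup.mk g)
    rw [hB', Finset.mem_image] at hqx hqy hqz
    obtain ⟨x, hx, rfl⟩ := hqx
    obtain ⟨y, hy, rfl⟩ := hqy
    obtain ⟨z, hz, rfl⟩ := hqz
    have hmem : g - (x + y + z) ∈ H := by
      have : (QuotientAddGroup.mk (x + y + z) : G ⧸ H) = QuotientAddGroup.mk g := by
        rw [← hq]; rfl
      have := QuotientAddGroup.eq.1 this
      have e : -(x + y + z) + g = g - (x + y + z) := by abel
      rwa [e] at this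
    have hfc := full_coset hodd B hs H F hF hholes hF0
    by_cases hxH : x ∈ H
    · by_cases hyH : y ∈ H
      · by_cases hzH : z ∈ H
        · -- all in H
          have hgH : g ∈ H := by
            have := H.add_mem hmem (H.add_mem (H.add_mem hxH hyH) hzH)
            have e : g - (x + y + z) + (x + y + z) = g := by abel
            rwa [e] at this
          have hex : ∃ w ∈ B, w ∉ H := by
            by_contra hno
            push Not at hno
            have : B ⊆ F := fun w hw => (hF w).2 (hno w hw)
            have := Finset.card_le_card this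
            have e2 : 3 * F.card ≤ Fintype.card G := by
              rw [← hindex, ← hFcard]
              nlinarith
            omega
          obtain ⟨w, hw, hwH⟩ := hex
          obtain ⟨u, hu, v, hv, huv⟩ := hfc w (-w) hw (hs w hw) (Or.inl hwH) g hgH
          exact hg u hu v hv 0 h0 (by rw [huv]; abel)
        · obtain ⟨u, hu, v, hv, huv⟩ := hfc x z hx hz (Or.inr hzH) _ hmem
          exact hg u hu v hv y hy (by rw [huv]; abel)
      · obtain ⟨u, hu, v, hv, huv⟩ := hfc x y hx hy (Or.inr hyH) _ hmem
        exact hg u hu v hv z hz (by rw [huv]; abel)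
    · obtain ⟨u, hu, v, hv, huv⟩ := hfc x y hx hy (Or.inl hxH) _ hmem
      exact hg u hu v hv z hz (by rw [huv]; abel)


/-- The `h`-fold signed sumset `h_± A`: all `∑_{a ∈ A} c_a a` with `c_a ∈ ℤ` and
`∑_{a ∈ A} |c_a| = h`. -/
def signedSumset {n : ℕ} (h : ℕ) (A : Finset (ZMod n)) : Set (ZMod n) :=
  {x | ∃ c : ZMod n → ℤ, (∑ a ∈ A, |c a|) = (h : ℤ) ∧ ∑ a ∈ A, c a • a = x}

/-- `[0,s]_± A`, the union of the `h_± A` with `0 ≤ h ≤ s`. -/
def signedUpTo {n : ℕ} (s : ℕ) (A : Finset (ZMod n)) : Set (ZMod n) :=
  {x | ∃ h : ℕ, h ≤ s ∧ x ∈ signedSumset h A}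

/-- Every `m`-element subset `A` of `ℤ_n` has `[0,s]_± A = ℤ_n`. -/
def Covers (n s m : ℕ) : Prop :=
  ∀ A : Finset (ZMod n), A.card = m → signedUpTo s A = Set.univ

/-- `v` is the number `v_±(n,s)`, the maximum over `d ∣ n` of
`(2 ⌊(d - 2) / (2 s)⌋ + 1) * (n / d)`. -/
def IsV (n s : ℕ) (v : ℤ) : Prop :=
  IsGreatest {w : ℤ | ∃ d : ℕ, d ∣ n ∧
    w = (2 * (((d : ℤ) - 2) / (2 * (s : ℤ))) + 1) * ((n / d : ℕ) : ℤ)} v

lemma rep {n : ℕ} (A : Finset (ZMod n)) (b : ZMod n) (hb : b ∈ A ∨ -b ∈ A ∨ b = 0) :
    ∃ c : ZMod n → ℤ, (∑ a ∈ A, |c a|) ≤ 1 ∧ ∑ a ∈ A, c a • a = b := by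
  classical
  rcases hb with hb | hb | hb
  · refine ⟨fun a => if a = b then 1 else 0, ?_, ?_⟩
    · have : ∀ a : ZMod n, |(if a = b then (1 : ℤ) else 0)| = if a = b then 1 else 0 := by
        intro a; split_ifs <;> simp
      simp only [this]
      rw [Finset.sum_ite_eq' A b]
      simp [hb]
    · simp [Finset.sum_ite_eq', hb]
  · refine ⟨fun a => if a = -b then -1 else 0, ?_, ?_⟩
    · have : ∀ a : ZMod n, |(if a = -b then (-1 : ℤ) else 0)| = if a = -b then 1 else 0 := by
        intro a; split_ifs <;> simp
      simp only [this]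
      rw [Finset.sum_ite_eq' A (-b)]
      simp [hb]
    · simp [Finset.sum_ite_eq', hb]
  · refine ⟨fun _ => 0, by simp, by simp [hb]⟩

lemma isV_third (n s : ℕ) (hn : Odd n) (h3 : 3 ∣ n) (hs : 3 ≤ s) :
    IsV n s ((n / 3 : ℕ) : ℤ) := by
  constructor
  · refine ⟨3, h3, ?_⟩
    have h : (((3 : ℕ) : ℤ) - 2) / (2 * (s : ℤ)) = 0 := by
      apply Int.ediv_eq_zero_of_lt
      · norm_num
      · have : (3 : ℤ) ≤ s := by exact_mod_cast hs
        push_cast
        linarith
    rw [h]; ring
  · rintro w ⟨d, hd, rfl⟩
    obtain ⟨e, he⟩ := hd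
    have hn0 : 0 < n := hn.pos
    have hd0 : 0 < d := Nat.pos_of_ne_zero (by rintro rfl; simp at he; omega)
    have hdodd : Odd d := by
      rw [he] at hn; exact (Nat.odd_mul.1 hn).1
    have hdiv : n / d = e := by rw [he]; exact Nat.mul_div_cancel_left e hd0
    rw [hdiv]
    set q : ℤ := ((d : ℤ) - 2) / (2 * (s : ℤ)) with hq
    have hs' : (3 : ℤ) ≤ s := by exact_mod_cast hs
    have hq1 : 2 * (s : ℤ) * q ≤ (d : ℤ) - 2 := by
      rw [hq]; exact Int.mul_ediv_self_le (by positivity)
    have hkey : 3 * (2 * q + 1) ≤ (d : ℤ) := by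
      obtain ⟨k, hk⟩ := hdodd
      rcases le_or_gt 0 q with h | h
      · have : 6 * q ≤ 2 * (s : ℤ) * q := by nlinarith
        omega
      · omega
    obtain ⟨t, ht⟩ := h3
    have hnt : n / 3 = t := by omega
    rw [hnt]
    have h5 : (3 : ℤ) * t = d * e := by
      have : 3 * t = d * e := by rw [← ht, ← he]
      exact_mod_cast this
    have he0 : (0 : ℤ) ≤ e := by positivity
    nlinarith

/-- For every odd `n` divisible by `3` and every `s ≥ 3`: `v_±(n,s) = n/3`, and the least `m`
such that every `m`-element subset `A` of `ℤ_n` satisfies `[0,s]_± A = ℤ_n` is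
`n/3 + 1 = v_±(n,s) + 1`. -/
theorem result (n s : ℕ) (hn : Odd n) (h3 : 3 ∣ n) (hs : 3 ≤ s) :
    IsV n s ((n / 3 : ℕ) : ℤ) ∧ IsLeast {m : ℕ | Covers n s m} (n / 3 + 1) := by
  classical
  refine ⟨isV_third n s hn h3 hs, ?_, ?_⟩
  · -- every set with `n/3 + 1` elements covers
    intro A hA
    have : NeZero n := ⟨hn.pos.ne'⟩
    rw [Set.eq_univ_iff_forall]
    intro g
    set B : Finset (ZMod n) := univ.filter (fun b => b ∈ A ∨ -b ∈ A ∨ b = 0) with hB
    have hAB : A ⊆ B := by
      intro a ha
      rw [hB, Finset.mem_filter]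
      exact ⟨mem_univ _, Or.inl ha⟩
    have hcard : Fintype.card (ZMod n) < 3 * B.card := by
      rw [ZMod.card]
      have := Finset.card_le_card hAB
      omega
    obtain ⟨x, hx, y, hy, z, hz, hxyz⟩ := triple n (ZMod n) (ZMod.card n)
      (by rw [ZMod.card]; exact hn) B (by simp [hB])
      (by
        intro b hb
        rw [hB, Finset.mem_filter] at hb ⊢
        refine ⟨mem_univ _, ?_⟩
        rcases hb.2 with h | h | h
        · right; left; rwa [neg_neg]
        · left; exact h
        · right; right; rw [h, neg_zero])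
      hcard g
    obtain ⟨c1, hc1, hc1'⟩ := rep A x (Finset.mem_filter.1 hx).2
    obtain ⟨c2, hc2, hc2'⟩ := rep A y (Finset.mem_filter.1 hy).2
    obtain ⟨c3, hc3, hc3'⟩ := rep A z (Finset.mem_filter.1 hz).2
    have hnonneg : 0 ≤ ∑ a ∈ A, |c1 a + c2 a + c3 a| :=
      Finset.sum_nonneg (fun a _ => abs_nonneg _)
    have hle : ∑ a ∈ A, |c1 a + c2 a + c3 a| ≤ 3 := by
      calc ∑ a ∈ A, |c1 a + c2 a + c3 a| ≤ ∑ a ∈ A, (|c1 a| + |c2 a| + |c3 a|) :=
            Finset.sum_le_sum (fun a _ => abs_add_three _ _ _)
        _ = (∑ a ∈ A, |c1 a|) + (∑ a ∈ A, |c2 a|) + (∑ a ∈ A, |c3 a|) := by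
            rw [Finset.sum_add_distrib, Finset.sum_add_distrib]
        _ ≤ 3 := by linarith
    refine ⟨(∑ a ∈ A, |c1 a + c2 a + c3 a|).toNat, by omega,
      fun a => c1 a + c2 a + c3 a, ?_, ?_⟩
    · rw [Int.toNat_of_nonneg hnonneg]
    · simp only [add_smul]
      rw [Finset.sum_add_distrib, Finset.sum_add_distrib, hc1', hc2', hc3', hxyz]
  · -- smaller sets need not cover
    intro m hm
    by_contra hlt
    push Not at hlt
    have : NeZero n := ⟨hn.pos.ne'⟩
    obtain ⟨t, ht⟩ := h3
    have hnt : n / 3 = t := by omega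
    set T : Finset (ZMod n) := (Finset.range t).image (fun k : ℕ => ((3 * k : ℕ) : ZMod n))
      with hT
    have hTcard : T.card = t := by
      rw [hT, Finset.card_image_of_injOn, Finset.card_range]
      intro a ha b hb hab
      have ha' : a < t := by simpa using ha
      have hb' : b < t := by simpa using hb
      simp only at hab
      rw [ZMod.natCast_eq_natCast_iff'] at hab
      rw [Nat.mod_eq_of_lt (by omega), Nat.mod_eq_of_lt (by omega)] at hab
      omega
    obtain ⟨A, hAT, hAm⟩ := Finset.exists_subset_card_eq (s := T) (n := m) (by omega)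
    have hcov := hm A hAm
    have h1 : (1 : ZMod n) ∈ signedUpTo s A := by rw [hcov]; exact Set.mem_univ _
    obtain ⟨h, _, c, _, hc⟩ := h1
    have h3n : 3 ∣ n := ⟨t, ht⟩
    set φ := ZMod.castHom h3n (ZMod 3) with hφ
    have hzero : ∀ a ∈ A, φ a = 0 := by
      intro a ha
      have := hAT ha
      rw [hT, Finset.mem_image] at this
      obtain ⟨k, _, rfl⟩ := this
      rw [map_natCast, ZMod.natCast_eq_zero_iff]
      exact ⟨k, rfl⟩
    have h4 : φ 1 = 0 := by
      rw [← hc, map_sum]
      apply Finset.sum_eq_zero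
      intro a ha
      rw [map_zsmul, hzero a ha, smul_zero]
    rw [map_one] at h4
    exact absurd h4 (by decide)

end Pool.Agent.Results.MP_33eb55_co.OddCyclic
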